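import Pool.Agent.R122.TD.Bridge

set_option autoImplicit false

/-!
# Treedepth of `P_t`-free graphs of bounded 2-treedepth

`td`, `td₂` and `PathFree` are defined in `Pool.Agent.R122.TD.Defs` exactly as in the problem file,
for the induced subgraphs `G[S]` of a graph `G` on a finite vertex set (`G` itself is `S = univ`).

Main idea.  Prove the weighted statement: if `td₂ G ≤ k` and `r : V → ℕ` is such that every induced
path from `a` to `b` has length at most `r a + r b`, then `G` has an elimination forest in which
every vertex `a` has depth at most `binom (r a + k - 1, k - 1)`.  At a cut vertex `w` one of the two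
sides, say `B`, satisfies: induced paths from `w` to `b ∈ B` have length at most `r b`.  Give `w` the
weight `ρ = min (r b - l)` over the induced paths of length `l` from `w` to `b ∈ B ∪ {w}`, use
induction for the other side, and hang below `w` an elimination of `B` of depths
`F (r b) - F (r b - dist (w, b))`, `F r = binom (r + k - 1, k - 1)`, which exists by a rooted version of
the statement; convexity of `F` makes the depths add up.
-/

namespace Pool.Agent.Results.MP_28efe0_co.TreedepthBound

open Pool.Agent.R122.TD

/-- **The conjectured formula is an upper bound for `g(k,t)`, for all `t ≥ 2` and `k ≥ 1`.** -/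
theorem result {V : Type*} [Fintype V] [DecidableEq V] (G : SimpleGraph V) (t k : ℕ)
    (ht : 2 ≤ t) (hk : 1 ≤ k) (hfree : PathFree G t) (h2 : td₂ G Finset.univ ≤ k) :
    td G Finset.univ ≤ ((t - 1) / 2 + k - 1).choose ((t - 1) / 2) :=
  upper ht hk hfree h2

end Pool.Agent.Results.MP_28efe0_co.TreedepthBound
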